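import Pool.Agent.FS32.Frame

/-!
# Danzer's problem at a finite scale
-/

set_option autoImplicit false

open Metric Set MeasureTheory

namespace Pool.Agent.FS32

open Pool.Agent.H18.Danzer

/-- The covering lemma in a disk. -/
theorem cover_fin {ι : Type*} [Fintype ι] (x : Plane) (r ρ : ℝ) (hr : 0 < r) (hρ : ρ ≤ r / 2)
    (T U : ι → Set Plane) (a N : ι → ℝ) (ha : ∀ j, 0 ≤ a j)
    (hU : ∀ j, U j ⊆ closedBall (0 : Plane) ρ)
    (hUm : ∀ j, MeasurableSet (U j)) (hUv : ∀ j, volume (U j) ≤ ENNReal.ofReal (a j))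
    (hT : ∀ j, (T j ∩ closedBall x r).Finite)
    (hTN : ∀ j, ((T j ∩ closedBall x r).ncard : ℝ) ≤ N j)
    (hsum : ∑ j, a j * N j < Real.pi * (r / 2) ^ 2) :
    ∃ y ∈ closedBall x (r / 2), ∀ j, ∀ p ∈ T j, p - y ∉ U j := by
  classical
  by_contra hno
  push Not at hno
  have hcover : closedBall x (r / 2) ⊆ ⋃ j ∈ (Finset.univ : Finset ι),
      ⋃ p ∈ (hT j).toFinset, {y : Plane | p - y ∈ U j} := by
    intro y hy
    obtain ⟨j, p, hp, hpx⟩ := hno y hy
    simp only [mem_iUnion, Finset.mem_univ, true_and, exists_prop, Finite.mem_toFinset,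
      mem_inter_iff, mem_ofPred_eq]
    refine ⟨j, p, ⟨hp, ?_⟩, hpx⟩
    have h1 := hU j hpx
    rw [mem_closedBall_zero_iff] at h1
    rw [mem_closedBall, dist_eq_norm] at hy ⊢
    calc ‖p - x‖ = ‖(y - x) + (p - y)‖ := by congr 1; abel
      _ ≤ ‖y - x‖ + ‖p - y‖ := norm_add_le _ _
      _ ≤ r := by linarith
  have hvol : ∀ (j : ι) (p : Plane), volume {y : Plane | p - y ∈ U j} ≤ ENNReal.ofReal (a j) := by
    intro j p
    have h1 : volume ((fun y : Plane => p - y) ⁻¹' (U j)) = volume (U j) :=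
      (Measure.measurePreserving_sub_left volume p).measure_preimage (hUm j).nullMeasurableSet
    exact (le_of_eq h1).trans (hUv j)
  have hmain : volume (closedBall x (r / 2)) ≤ ENNReal.ofReal (∑ j, a j * N j) := by
    calc volume (closedBall x (r / 2))
        ≤ volume (⋃ j ∈ (Finset.univ : Finset ι),
            ⋃ p ∈ (hT j).toFinset, {y : Plane | p - y ∈ U j}) := measure_mono hcover
      _ ≤ ∑ j, volume (⋃ p ∈ (hT j).toFinset, {y : Plane | p - y ∈ U j}) :=
          measure_biUnion_finset_le _ _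
      _ ≤ ∑ j, ∑ p ∈ (hT j).toFinset, volume {y : Plane | p - y ∈ U j} := by
          gcongr with j
          exact measure_biUnion_finset_le _ _
      _ ≤ ∑ j, ∑ p ∈ (hT j).toFinset, ENNReal.ofReal (a j) := by
          gcongr with j _ p
          exact hvol j p
      _ = ∑ j, ENNReal.ofReal (((T j ∩ closedBall x r).ncard : ℝ) * a j) := by
          apply Finset.sum_congr rfl
          intro j _
          have hc := ncard_eq_toFinset_card _ (hT j)
          rw [Finset.sum_const, nsmul_eq_mul, ENNReal.ofReal_mul (by positivity),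
            ENNReal.ofReal_natCast, ← hc]
      _ = ENNReal.ofReal (∑ j, (((T j ∩ closedBall x r).ncard : ℝ) * a j)) := by
          rw [ENNReal.ofReal_sum_of_nonneg]
          intro j _
          exact mul_nonneg (by positivity) (ha j)
      _ ≤ ENNReal.ofReal (∑ j, a j * N j) := by
          apply ENNReal.ofReal_le_ofReal
          apply Finset.sum_le_sum
          intro j _
          rw [mul_comm]
          exact mul_le_mul_of_nonneg_left (hTN j) (ha j)
  have hball : volume (closedBall x (r / 2)) = ENNReal.ofReal (Real.pi * (r / 2) ^ 2) := by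
    rw [EuclideanSpace.volume_closedBall_fin_two, mul_comm, ENNReal.ofReal_mul Real.pi_pos.le,
      ENNReal.ofReal_pow (by positivity)]
  rw [hball] at hmain
  have hN0 : 0 ≤ ∑ j, a j * N j := by
    apply Finset.sum_nonneg
    intro j _
    exact mul_nonneg (ha j) (le_trans (by positivity) (hTN j))
  rw [ENNReal.ofReal_le_ofReal_iff hN0] at hmain
  linarith

/-- `F` is doubly periodic with periods `a` and `b`. -/
def Periodic (F : Set Plane) (a : Plane) : Prop := ∀ p : Plane, p ∈ F ↔ p + a ∈ F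

lemma Periodic.neg {F : Set Plane} {a : Plane} (h : Periodic F a) : Periodic F (-a) := by
  intro p
  have := h (p + -a)
  rw [neg_add_cancel_right] at this
  exact this.symm

lemma Periodic.add {F : Set Plane} {a b : Plane} (ha : Periodic F a) (hb : Periodic F b) :
    Periodic F (a + b) := by
  intro p
  rw [← add_assoc]
  exact (ha p).trans (hb _)

lemma Periodic.zero {F : Set Plane} : Periodic F 0 := by
  intro p; rw [add_zero]

lemma Periodic.nsmul {F : Set Plane} {a : Plane} (ha : Periodic F a) (n : ℕ) :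
    Periodic F ((n : ℝ) • a) := by
  induction n with
  | zero => simpa using Periodic.zero
  | succ n ih =>
    have : ((n + 1 : ℕ) : ℝ) • a = (n : ℝ) • a + a := by push_cast; rw [add_smul, one_smul]
    rw [this]
    exact ih.add ha

lemma Periodic.zsmul {F : Set Plane} {a : Plane} (ha : Periodic F a) (n : ℤ) :
    Periodic F ((n : ℝ) • a) := by
  obtain ⟨m, rfl | rfl⟩ := n.eq_nat_or_neg
  · simpa using ha.nsmul m
  · have := (ha.nsmul m).neg
    simpa using this

lemma Periodic.comb {F : Set Plane} {a b : Plane} (ha : Periodic F a) (hb : Periodic F b)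
    (m n : ℤ) : Periodic F (comb a b m n) := (ha.zsmul m).add (hb.zsmul n)

/-- The exit lemma for a set whose rows in the direction `e` have gaps at most `C`. -/
lemma row_exit {G K : Set Plane} {e y : Plane} (he : ‖e‖ = 1) {C : ℝ}
    (hK : Convex ℝ K) (hG : ∀ p ∈ G, ∃ c : ℝ, 0 < c ∧ c ≤ C ∧ p - c • e ∈ G)
    (hfin : {p | p ∈ G ∧ p - y ∈ K}.Finite) {z : Plane} (hz : z ∈ G) (hzK : z - y ∈ K) :
    ∃ p ∈ G, p - y ∈ K ∧ p - y - C • e ∉ K := by
  obtain ⟨p, ⟨hp, hpK⟩, hmin⟩ := Set.exists_min_image _ (dot e) hfin ⟨z, hz, hzK⟩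
  refine ⟨p, hp, hpK, fun hc => ?_⟩
  obtain ⟨c, hc0, hcC, hcG⟩ := hG p hp
  have hC0 : 0 < C := by linarith
  have hin : p - c • e - y ∈ K := by
    have h1 := hK hpK hc (a := 1 - c / C) (b := c / C)
      (by rw [sub_nonneg, div_le_one hC0]; exact hcC) (by positivity) (by ring)
    have h2 : (1 - c / C) • (p - y) + (c / C) • (p - y - C • e) = p - c • e - y := by
      have h3 : (c / C) • (C • e) = c • e := by
        rw [smul_smul, div_mul_cancel₀ _ hC0.ne']
      rw [smul_sub (c / C) (p - y) (C • e), h3, sub_smul, one_smul]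
      abel
    rwa [h2] at h1
  have h4 := hmin _ ⟨hcG, hin⟩
  have h5 : dot e (p - c • e) = dot e p - c := by
    rw [dot_sub_right]
    have : dot e (c • e) = c * dot e e := by unfold dot; simp; ring
    rw [this, dot_self, he]; ring
  rw [h5] at h4
  linarith

/-- Danzer's problem at a finite scale. -/
theorem finite_scale (k : ℕ) (A C D V r : ℝ) (hA : 1 ≤ A) (hC : 1 ≤ C) (hD : 1 ≤ D) (hV : 1 ≤ V)
    (hr : C * (10 ^ 4 * D ^ 2 * A * V) ^ 2 ^ k ≤ r) (x : Plane) (S E G : Set Plane)
    (F : Fin k → Set Plane) (e : Plane) (a b : Fin k → Plane) (he : ‖e‖ = 1)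
    (hG : ∀ p ∈ G, ∃ c : ℝ, 0 < c ∧ c ≤ C ∧ p - c • e ∈ G)
    (hab : ∀ i, wedge (a i) (b i) ≠ 0) (habV : ∀ i, |wedge (a i) (b i)| ≤ V)
    (hFa : ∀ i, Periodic (F i) (a i)) (hFb : ∀ i, Periodic (F i) (b i))
    (hS : S ∩ closedBall x r ⊆ E ∪ G ∪ ⋃ i, F i)
    (hE : (E ∩ closedBall x r).Finite) (hGf : (G ∩ closedBall x r).Finite)
    (hF : ∀ i, (F i ∩ closedBall x r).Finite)
    (hEn : ((E ∩ closedBall x r).ncard : ℝ) ≤ r ^ 2 / (2 * A))
    (hGFn : ((G ∩ closedBall x r).ncard : ℝ) + ∑ i, ((F i ∩ closedBall x r).ncard : ℝ) ≤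
      D * r ^ 2) :
    ∃ K : Set Plane, Convex ℝ K ∧ IsCompact K ∧ volume K = ENNReal.ofReal A ∧
      K ⊆ closedBall x r ∧ Disjoint K S := by
  classical
  have hA0 : 0 < A := by linarith
  have hC0 : 0 < C := by linarith
  have hD0 : 0 < D := by linarith
  have hV0 : 0 < V := by linarith
  have hDA : 1 ≤ D * A := by nlinarith
  obtain ⟨W, hW⟩ : ∃ W : ℝ, W = 10 ^ 4 * D ^ 2 * A * V := ⟨_, rfl⟩
  obtain ⟨η, hη⟩ : ∃ η : ℝ, η = 1 / (256 * D ^ 2 * A) := ⟨_, rfl⟩
  rw [← hW] at hr
  have hη0 : 0 < η := by rw [hη]; positivity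
  have hη1 : η ≤ 1 := by
    rw [hη, div_le_one (by positivity)]
    have : D * (D * A) = D ^ 2 * A := by ring
    nlinarith
  have hQW : 36 * V / η ≤ W := by
    have e : 36 * V / η = 9216 * (D ^ 2 * A * V) := by
      rw [hη]; field_simp; ring
    have e' : W = 10 ^ 4 * (D ^ 2 * A * V) := by rw [hW]; ring
    have h0 : 0 < D ^ 2 * A * V := by positivity
    rw [e, e']; linarith
  have hWk : 10 ^ 4 * (D * A) ≤ W := by
    have e' : W = 10 ^ 4 * (D * A) * (D * V) := by rw [hW]; ring
    rw [e']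
    have h1 : 1 ≤ D * V := by nlinarith
    have h2 : 0 < 10 ^ 4 * (D * A) := by positivity
    nlinarith
  have hW1 : 10 ^ 4 ≤ W := by linarith
  obtain ⟨u, M, hu, hCM, hMle, ⟨hed, hew⟩, hv⟩ := frame k a b V η C e hV hη0 hη1 hC he hab habV
  have hM : 1 ≤ M := hC.trans hCM
  have hM0 : 0 < M := by linarith
  choose m n hmn hdot hwed using hv
  have hMr : W * M ≤ r := by
    have h1 : M ≤ C * W ^ (2 ^ k - 1) :=
      hMle.trans (mul_le_mul_of_nonneg_left (pow_le_pow_left₀ (by positivity) hQW _) hC0.le)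
    have h2 : 2 ^ k = (2 ^ k - 1) + 1 := by
      have : 1 ≤ 2 ^ k := Nat.one_le_two_pow
      omega
    calc W * M ≤ W * (C * W ^ (2 ^ k - 1)) := mul_le_mul_of_nonneg_left h1 (by linarith)
      _ = C * W ^ 2 ^ k := by
        conv_rhs => rw [h2, pow_succ]
        ring
      _ ≤ r := hr
  have hr4 : 10 ^ 4 ≤ r := by nlinarith
  have hr0 : 0 < r := by linarith
  obtain ⟨Λ, hΛ⟩ : ∃ Λ : ℝ, Λ = 8 * D * A := ⟨_, rfl⟩
  have hΛ0 : 0 < Λ := by rw [hΛ]; positivity
  obtain ⟨α, hα⟩ : ∃ α : ℝ, α = M * Λ := ⟨_, rfl⟩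
  have hα0 : 0 < α := by rw [hα]; positivity
  obtain ⟨β, hβ⟩ : ∃ β : ℝ, β = A / (4 * α) := ⟨_, rfl⟩
  have hβ0 : 0 < β := by rw [hβ]; positivity
  have hαr : α ≤ r / 4 := by
    have h1 : Λ ≤ W / 4 := by
      have : Λ = 8 * (D * A) := by rw [hΛ]; ring
      linarith
    calc α = M * Λ := hα
      _ ≤ M * (W / 4) := mul_le_mul_of_nonneg_left h1 hM0.le
      _ = (W * M) / 4 := by ring
      _ ≤ r / 4 := by linarith
  have hβr : β ≤ r / 4 := by
    have h1 : A ≤ 4 * α := by
      have h2 : A ≤ Λ := by rw [hΛ]; nlinarith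
      have h3 : Λ ≤ α := by rw [hα]; nlinarith
      linarith
    have : β ≤ 1 := by
      rw [hβ, div_le_one (by positivity)]; exact h1
    linarith
  obtain ⟨K, hK⟩ : ∃ K : Set Plane, K = box u (-α) α (-β) β := ⟨_, rfl⟩
  have hKb : K ⊆ closedBall (0 : Plane) (α + β) := by
    rw [hK]; exact box_subset_closedBall hu hα0.le hβ0.le
  have hKbdd : Bornology.IsBounded K := isBounded_closedBall.subset hKb
  have hKclosed : IsClosed K := by rw [hK]; exact isClosed_box _ _ _ _ _
  have hKconv : Convex ℝ K := by rw [hK]; exact convex_box _ _ _ _ _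
  have hKvol : volume K = ENNReal.ofReal A := by
    rw [hK, volume_box u hu, ← ENNReal.ofReal_mul (by linarith)]
    congr 1
    rw [hβ]; field_simp; ring
  have hcr : ∀ w : Plane, |dot u w| ≤ M → |wedge u w| ≤ η / M →
      volume {x : Plane | x ∈ K ∧ x - w ∉ K} ≤ ENNReal.ofReal (1 / (4 * D)) := by
    intro w hw1 hw2
    rw [hK]
    refine (volume_crescent hu hα0.le hβ0.le w).trans (ENNReal.ofReal_le_ofReal ?_)
    calc 4 * β * |dot u w| + 4 * α * |wedge u w| ≤ 4 * β * M + 4 * α * (η / M) :=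
          add_le_add (mul_le_mul_of_nonneg_left hw1 (by positivity))
            (mul_le_mul_of_nonneg_left hw2 (by positivity))
      _ = A / Λ + 4 * Λ * η := by
          rw [hβ, hα]; field_simp
      _ = 1 / (4 * D) := by
          rw [hΛ, hη]; field_simp; ring
  have hmeas : ∀ w : Plane, MeasurableSet {x : Plane | x ∈ K ∧ x - w ∉ K} := fun w =>
    hKclosed.measurableSet.inter
      (((hKclosed.preimage (continuous_sub_right w)).measurableSet).compl)
  obtain ⟨v, hvdef⟩ : ∃ v : Fin k → Plane, v = fun i => comb (a i) (b i) (m i) (n i) := ⟨_, rfl⟩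
  have hv0 : ∀ i, v i ≠ 0 := by intro i; rw [hvdef]; exact hmn i
  have hvper : ∀ i, Periodic (F i) (-(v i)) := by
    intro i; rw [hvdef]; exact ((hFa i).comb (hFb i) (m i) (n i)).neg
  have hcrv : ∀ i, volume {x : Plane | x ∈ K ∧ x - v i ∉ K} ≤ ENNReal.ofReal (1 / (4 * D)) := by
    intro i
    apply hcr
    · rw [hvdef]; exact hdot i
    · rw [hvdef]; exact hwed i
  obtain ⟨y, hy, hyT⟩ := cover_fin (ι := Option (Option (Fin k))) x r (α + β) hr0 (by linarith)
    (fun o => Option.elim o E (fun o => Option.elim o G F))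
    (fun o => Option.elim o K (fun o => Option.elim o {x : Plane | x ∈ K ∧ x - C • e ∉ K}
      (fun i => {x : Plane | x ∈ K ∧ x - v i ∉ K})))
    (fun o => Option.elim o A (fun _ => 1 / (4 * D)))
    (fun o => Option.elim o (r ^ 2 / (2 * A)) (fun o => Option.elim o
      ((G ∩ closedBall x r).ncard : ℝ) (fun i => ((F i ∩ closedBall x r).ncard : ℝ))))
    (by
      rintro (_ | _)
      · exact hA0.le
      · show 0 ≤ 1 / (4 * D)
        positivity)
    (by
      rintro (_ | _ | i)
      · exact hKb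
      · exact fun x hx => hKb hx.1
      · exact fun x hx => hKb hx.1)
    (by
      rintro (_ | _ | i)
      · exact hKclosed.measurableSet
      · exact hmeas _
      · exact hmeas _)
    (by
      rintro (_ | _ | i)
      · exact hKvol.le
      · exact hcr _ hed hew
      · exact hcrv i)
    (by
      rintro (_ | _ | i)
      · exact hE
      · exact hGf
      · exact hF i)
    (by
      rintro (_ | _ | i)
      · exact hEn
      · exact le_rfl
      · exact le_rfl)
    (by
      rw [Fintype.sum_option, Fintype.sum_option]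
      simp only [Option.elim]
      rw [← Finset.mul_sum, ← mul_add]
      have e1 : A * (r ^ 2 / (2 * A)) = r ^ 2 / 2 := by field_simp
      have e2 : 1 / (4 * D) * (((G ∩ closedBall x r).ncard : ℝ) +
          ∑ i, ((F i ∩ closedBall x r).ncard : ℝ)) ≤ r ^ 2 / 4 := by
        calc _ ≤ 1 / (4 * D) * (D * r ^ 2) := mul_le_mul_of_nonneg_left hGFn (by positivity)
          _ = r ^ 2 / 4 := by field_simp
      rw [e1]
      have h3 : (3.14 : ℝ) < Real.pi := Real.pi_gt_d2
      have h4 : 0 < r ^ 2 := by positivity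
      nlinarith)
  have hKx : (fun z : Plane => z - y) ⁻¹' K ⊆ closedBall x r := by
    intro z hz
    have h1 := hKb hz
    rw [mem_closedBall_zero_iff] at h1
    rw [mem_closedBall, dist_eq_norm] at hy ⊢
    calc ‖z - x‖ = ‖(z - y) + (y - x)‖ := by congr 1; abel
      _ ≤ ‖z - y‖ + ‖y - x‖ := norm_add_le _ _
      _ ≤ r := by linarith
  refine ⟨(fun z : Plane => z - y) ⁻¹' K, ?_, ?_, ?_, hKx, ?_⟩
  · have h1 := hKconv.translate_preimage_right (-y)
    have h2 : (fun z : Plane => z - y) = fun z => -y + z := by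
      funext z; exact sub_eq_neg_add z y
    rw [h2]; exact h1
  · exact isCompact_of_isClosed_isBounded (hKclosed.preimage (continuous_sub_right y))
      (isBounded_closedBall.subset hKx)
  · rw [(measurePreserving_sub_right volume y).measure_preimage
      hKclosed.measurableSet.nullMeasurableSet, hKvol]
  · rw [Set.disjoint_left]
    intro z hz hzS
    rcases hS ⟨hzS, hKx hz⟩ with (h | h) | h
    · exact hyT none z h hz
    · obtain ⟨p, hp, hpK, hpn⟩ := row_exit (y := y) he hKconv hG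
        (hGf.subset fun p hp => ⟨hp.1, hKx hp.2⟩) h hz
      exact hyT (some none) p hp ⟨hpK, hpn⟩
    · obtain ⟨i, hi⟩ := mem_iUnion.1 h
      obtain ⟨p, hp, hpx, h | h⟩ := exists_exit hKbdd (hv0 i) hi hz
      · apply h
        have := (hvper i p).1 hp
        rwa [← sub_eq_add_neg] at this
      · refine hyT (some (some i)) p hp ⟨hpx, ?_⟩
        rwa [show p - y - v i = p - v i - y by abel]

end Pool.Agent.FS32
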