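import Pool.Agent.H18.Danzer.Rect
import Pool.Agent.SSS.Mink

/-!
# Danzer's problem at a finite scale: a common frame for finitely many lattices
-/

set_option autoImplicit false

namespace Pool.Agent.FS32

open Pool.Agent.H18.Danzer

/-- The integer combination `m a + n b`. -/
noncomputable def comb (a b : Plane) (m n : ℤ) : Plane := (m : ℝ) • a + (n : ℝ) • b

lemma dot_comb (u a b : Plane) (m n : ℤ) :
    dot u (comb a b m n) = m * dot u a + n * dot u b := dot_smul_add u a b m n

lemma wedge_comb (u a b : Plane) (m n : ℤ) :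
    wedge u (comb a b m n) = m * wedge u a + n * wedge u b := wedge_smul_add u a b m n

lemma mink {a b u : Plane} (hu : ‖u‖ = 1) (hab : wedge a b ≠ 0) {X Y : ℝ} (hX : 0 < X)
    (hY : 0 < Y) (h : |wedge a b| < X * Y) :
    ∃ m n : ℤ, comb a b m n ≠ 0 ∧ |dot u (comb a b m n)| < X ∧ |wedge u (comb a b m n)| < Y := by
  have hdet : (!![dot u a, dot u b; wedge u a, wedge u b] : Matrix (Fin 2) (Fin 2) ℝ).det
      = wedge a b := by
    rw [Matrix.det_fin_two_of]
    have h1 : dot u a * wedge u b - dot u b * wedge u a = ‖u‖ ^ 2 * wedge a b := by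
      rw [norm_sq]; unfold dot wedge; ring
    rw [h1, hu]; ring
  obtain ⟨y, hy0, hy⟩ := Pool.Agent.SSS.minkowski_linear_forms
    (!![dot u a, dot u b; wedge u a, wedge u b]) (by rw [hdet]; exact hab) ![X, Y]
    (by intro i; fin_cases i <;> simpa) (by rw [hdet, Fin.prod_univ_two]; simpa using h)
  have h0 := hy 0
  have h1 := hy 1
  simp [Matrix.mulVec, dotProduct, Fin.sum_univ_two] at h0 h1
  refine ⟨y 0, y 1, ?_, ?_, ?_⟩
  · intro hc
    apply hy0
    have e1 : wedge a (comb a b (y 0) (y 1)) = 0 := by rw [hc]; unfold wedge; simp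
    have e2 : wedge b (comb a b (y 0) (y 1)) = 0 := by rw [hc]; unfold wedge; simp
    rw [wedge_comb, wedge_self, mul_zero, zero_add] at e1
    rw [wedge_comb, wedge_self, mul_zero, add_zero, wedge_swap] at e2
    have f1 : (y 1 : ℝ) = 0 := by
      rcases mul_eq_zero.1 e1 with h | h
      · exact h
      · exact absurd h hab
    have f0 : (y 0 : ℝ) = 0 := by
      rcases mul_eq_zero.1 e2 with h | h
      · exact h
      · exact absurd (neg_eq_zero.1 h) hab
    ext i
    fin_cases i
    · simpa using f0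
    · simpa using f1
  · rw [dot_comb]
    have e : (y 0 : ℝ) * dot u a + (y 1 : ℝ) * dot u b = dot u a * y 0 + dot u b * y 1 := by ring
    rw [e]; exact h0
  · rw [wedge_comb]
    have e : (y 0 : ℝ) * wedge u a + (y 1 : ℝ) * wedge u b = wedge u a * y 0 + wedge u b * y 1 := by
      ring
    rw [e]; exact h1

lemma norm_sq_frame {u : Plane} (hu : ‖u‖ = 1) (v : Plane) :
    ‖v‖ ^ 2 = dot u v ^ 2 + wedge u v ^ 2 := by
  have := dot_sq_add_wedge_sq u v
  rw [hu] at this
  linarith

/-- Rotating the frame to a new vector. -/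
lemma rotate {u v w : Plane} (hu : ‖u‖ = 1) {M η V : ℝ} (hM : 1 ≤ M) (hη : 0 < η) (hη1 : η ≤ 1)
    (hV : 1 ≤ V) (hv0 : 0 < ‖v‖) (hvM : M < ‖v‖) (hvle : ‖v‖ ≤ 9 * V * M / η)
    (hY : |wedge u v| ≤ η / (4 * M)) (h2 : |dot u w| ≤ M)
    (h3 : |wedge u w| ≤ η ^ 2 / (36 * V) / M) :
    |dot ((1 / ‖v‖) • v) w| ≤ 2 * ‖v‖ ∧ |wedge ((1 / ‖v‖) • v) w| ≤ η / (2 * ‖v‖) := by
  have hM0 : 0 < M := by linarith
  have hdot : dot ((1 / ‖v‖) • v) w = dot v w / ‖v‖ := by
    unfold dot; simp; ring
  have hwed : wedge ((1 / ‖v‖) • v) w = wedge v w / ‖v‖ := by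
    unfold wedge; simp; ring
  have hη'1 : η ^ 2 / (36 * V) ≤ 1 := by
    rw [div_le_one (by positivity)]; nlinarith
  refine ⟨?_, ?_⟩
  · have hwle : ‖w‖ ≤ 2 * M := by
      apply le_of_sq_le_sq _ (by positivity)
      rw [norm_sq_frame hu w]
      have g1 : dot u w ^ 2 ≤ M ^ 2 := by
        rw [← sq_abs]; exact pow_le_pow_left₀ (abs_nonneg _) h2 2
      have g2 : wedge u w ^ 2 ≤ M ^ 2 := by
        rw [← sq_abs]
        refine pow_le_pow_left₀ (abs_nonneg _) (h3.trans ?_) 2
        rw [div_le_iff₀ hM0]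
        nlinarith
      nlinarith
    rw [hdot, abs_div, abs_of_pos hv0, div_le_iff₀ hv0]
    have := abs_dot_le v w
    nlinarith
  · rw [hwed, abs_div, abs_of_pos hv0]
    have hid : wedge v w = dot u v * wedge u w - wedge u v * dot u w := by
      have := wedge_identity u v w
      rw [hu, show dot v u = dot u v by unfold dot; ring] at this
      linarith
    have hle : |wedge v w| ≤ ‖v‖ * (η ^ 2 / (36 * V) / M) + η / (4 * M) * M := by
      rw [hid]
      refine (abs_sub _ _).trans ?_
      rw [abs_mul, abs_mul]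
      have g1 : |dot u v| ≤ ‖v‖ := by
        have := abs_dot_le u v
        rwa [hu, one_mul] at this
      exact add_le_add (mul_le_mul g1 h3 (abs_nonneg _) hv0.le)
        (mul_le_mul hY h2 (abs_nonneg _) (by positivity))
    rw [div_le_div_iff₀ hv0 (by positivity)]
    have e1 : η / (4 * M) * M = η / 4 := by field_simp
    rw [e1] at hle
    have e2 : ‖v‖ * (η ^ 2 / (36 * V) / M) ≤ η / 4 := by
      calc ‖v‖ * (η ^ 2 / (36 * V) / M) ≤ 9 * V * M / η * (η ^ 2 / (36 * V) / M) :=
            mul_le_mul_of_nonneg_right hvle (by positivity)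
        _ = η / 4 := by field_simp; ring
    nlinarith

/-- For `k` lattices there is a common frame in which each of them has a nonzero vector that is
nearly parallel to the first axis; the vector `C e` may be prescribed in addition. -/
theorem frame (k : ℕ) : ∀ (a b : Fin k → Plane) (V η C : ℝ) (e : Plane), 1 ≤ V → 0 < η → η ≤ 1 →
    1 ≤ C → ‖e‖ = 1 →
    (∀ i, wedge (a i) (b i) ≠ 0) → (∀ i, |wedge (a i) (b i)| ≤ V) →
    ∃ (u : Plane) (M : ℝ), ‖u‖ = 1 ∧ C ≤ M ∧ M ≤ C * (36 * V / η) ^ (2 ^ k - 1) ∧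
      (|dot u (C • e)| ≤ M ∧ |wedge u (C • e)| ≤ η / M) ∧
      ∀ i, ∃ m n : ℤ, comb (a i) (b i) m n ≠ 0 ∧ |dot u (comb (a i) (b i) m n)| ≤ M ∧
        |wedge u (comb (a i) (b i) m n)| ≤ η / M := by
  induction k with
  | zero =>
    intro a b V η C e _ hη _ hC he _ _
    have h1 : dot e (C • e) = C := by
      have : dot e (C • e) = C * dot e e := by unfold dot; simp; ring
      rw [this, dot_self, he]; ring
    have h2 : wedge e (C • e) = 0 := by unfold wedge; simp; ring
    refine ⟨e, C, he, le_rfl, by simp, ⟨?_, ?_⟩, fun i => i.elim0⟩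
    · rw [h1, abs_of_nonneg (by linarith)]
    · rw [h2, abs_zero]; positivity
  | succ k ih =>
    intro a b V η C e hV hη hη1 hC he hab habV
    have hV0 : 0 < V := by linarith
    have hC0 : 0 < C := by linarith
    have hη'0 : 0 < η ^ 2 / (36 * V) := by positivity
    have hη'η : η ^ 2 / (36 * V) ≤ η := by
      rw [div_le_iff₀ (by positivity)]
      nlinarith
    obtain ⟨u, M, hu, hM, hMle, ⟨he1, he2⟩, hv⟩ := ih (fun i => a i.castSucc)
      (fun i => b i.castSucc) V (η ^ 2 / (36 * V)) C e hV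
      hη'0 (hη'η.trans hη1) hC he (fun i => hab _) (fun i => habV _)
    have hM1 : 1 ≤ M := hC.trans hM
    have hM0 : 0 < M := by linarith
    have hdM : η ^ 2 / (36 * V) / M ≤ η / M := div_le_div_of_nonneg_right hη'η hM0.le
    obtain ⟨Q, hQ⟩ : ∃ Q : ℝ, Q = 36 * V / η := ⟨_, rfl⟩
    have hQ1 : 1 ≤ Q := by
      rw [hQ, le_div_iff₀ hη]; nlinarith
    have hQ' : 36 * V / (η ^ 2 / (36 * V)) = Q ^ 2 := by
      rw [hQ]; field_simp
    have h2k : 1 ≤ 2 ^ k := Nat.one_le_two_pow
    have hMle' : M ≤ C * Q ^ (2 ^ (k + 1) - 2) := by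
      rw [hQ', ← pow_mul] at hMle
      have e : 2 * (2 ^ k - 1) = 2 ^ (k + 1) - 2 := by rw [pow_succ]; omega
      rwa [e] at hMle
    have hexp : 2 ^ (k + 1) - 1 = (2 ^ (k + 1) - 2) + 1 := by
      have : 2 ≤ 2 ^ (k + 1) := by rw [pow_succ]; omega
      omega
    rw [← hQ]
    obtain ⟨m, n, hmn, hX, hY⟩ := mink (u := u) hu (hab (Fin.last k)) (X := 8 * V * M / η)
      (Y := η / (4 * M)) (by positivity) (by positivity) (by
        have e : 8 * V * M / η * (η / (4 * M)) = 2 * V := by field_simp; ring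
        rw [e]
        have := habV (Fin.last k)
        linarith)
    obtain ⟨v, hvdef⟩ : ∃ v : Plane, v = comb (a (Fin.last k)) (b (Fin.last k)) m n := ⟨_, rfl⟩
    rw [← hvdef] at hmn hX hY
    by_cases hcase : |dot u v| ≤ M
    · refine ⟨u, M, hu, hM, ?_, ⟨he1, he2.trans hdM⟩, ?_⟩
      · refine hMle'.trans ?_
        exact mul_le_mul_of_nonneg_left (pow_le_pow_right₀ hQ1 (by omega)) hC0.le
      · intro i
        refine Fin.lastCases ?_ (fun i => ?_) i
        · refine ⟨m, n, hvdef ▸ hmn, hvdef ▸ hcase, hvdef ▸ (hY.le.trans ?_)⟩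
          rw [div_le_div_iff₀ (by positivity) hM0]
          nlinarith
        · obtain ⟨m', n', h1, h2, h3⟩ := hv i
          exact ⟨m', n', h1, h2, h3.trans hdM⟩
    · push Not at hcase
      have hvM : M < ‖v‖ := by
        have := abs_dot_le u v
        rw [hu, one_mul] at this
        linarith
      have hv0 : 0 < ‖v‖ := by linarith
      have hvle : ‖v‖ ≤ 9 * V * M / η := by
        apply le_of_sq_le_sq _ (by positivity)
        rw [norm_sq_frame hu v]
        have h1 : dot u v ^ 2 ≤ (8 * V * M / η) ^ 2 := by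
          rw [← sq_abs]
          exact pow_le_pow_left₀ (abs_nonneg _) hX.le 2
        have h2 : wedge u v ^ 2 ≤ (V * M / η) ^ 2 := by
          rw [← sq_abs]
          refine pow_le_pow_left₀ (abs_nonneg _) (hY.le.trans ?_) 2
          rw [div_le_div_iff₀ (by positivity) hη]
          have e1 : 1 ≤ V * M := by nlinarith
          have e2 : η * η ≤ 1 := by nlinarith
          have e3 : 1 ≤ V * M * (4 * M) := by nlinarith
          linarith
        have e : (9 * V * M / η) ^ 2 = (8 * V * M / η) ^ 2 + 17 * (V * M / η) ^ 2 := by ring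
        rw [e]
        nlinarith [sq_nonneg (V * M / η)]
      have hrot := fun (w : Plane) (h2 : |dot u w| ≤ M) (h3 : |wedge u w| ≤ η ^ 2 / (36 * V) / M) =>
        rotate (w := w) hu hM1 hη hη1 hV hv0 hvM hvle hY.le h2 h3
      refine ⟨(1 / ‖v‖) • v, 2 * ‖v‖, ?_, by linarith, ?_, hrot _ he1 he2, ?_⟩
      · rw [norm_smul, Real.norm_of_nonneg (by positivity)]
        field_simp
      · have h18 : 18 * V / η ≤ Q := by
          rw [hQ, div_le_div_iff₀ hη hη]; nlinarith
        calc 2 * ‖v‖ ≤ 2 * (9 * V * M / η) := by linarith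
          _ = (18 * V / η) * M := by ring
          _ ≤ Q * (C * Q ^ (2 ^ (k + 1) - 2)) :=
            mul_le_mul h18 hMle' hM0.le (by linarith)
          _ = C * Q ^ (2 ^ (k + 1) - 1) := by rw [hexp, pow_succ]; ring
      · intro i
        refine Fin.lastCases ?_ (fun i => ?_) i
        · refine ⟨m, n, hvdef ▸ hmn, ?_, ?_⟩
          · rw [← hvdef]
            have hdot : dot ((1 / ‖v‖) • v) v = dot v v / ‖v‖ := by
              unfold dot; simp; ring
            rw [hdot, dot_self, abs_of_nonneg (by positivity), div_le_iff₀ hv0]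
            nlinarith
          · rw [← hvdef]
            have hwed : wedge ((1 / ‖v‖) • v) v = wedge v v / ‖v‖ := by
              unfold wedge; simp; ring
            rw [hwed, wedge_self, zero_div, abs_zero]; positivity
        · obtain ⟨m', n', h1, h2, h3⟩ := hv i
          exact ⟨m', n', h1, hrot _ h2 h3⟩

end Pool.Agent.FS32
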